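import Pool.Graph.R_seed8.R807.IN4
import Pool.Graph.R_seed8.W120.VC.Tet

set_option autoImplicit false

/-! Project CYC (helper62), module VM (helper94): the formal volume of the powers of a word. -/

namespace Pool.Agent.H94.CYC

open Finset
open GapVol (lob)
open Pool.Agent.R807.IN
open scoped Real

theorem len_rep (u : List Bool) (n : ℕ) : (List.replicate n u).flatten.length = n * u.length := by
  simp [List.length_flatten]

theorem getD_rep (u : List Bool) (n k : ℕ) (hk : k < n * u.length) :
    (List.replicate n u).flatten.getD k false = u.getD (k % u.length) false := by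
  induction n generalizing k with
  | zero => simp at hk
  | succ n ih =>
    rw [List.replicate_succ, List.flatten_cons]
    by_cases h : k < u.length
    · rw [List.getD_append _ _ _ _ h, Nat.mod_eq_of_lt h]
    · have h' : u.length ≤ k := Nat.le_of_not_lt h
      rw [List.getD_append_right _ _ _ _ h', ih (k - u.length) (by
        rw [Nat.succ_mul] at hk
        omega)]
      congr 1
      rw [Nat.mod_eq_sub_mod h']

theorem lett_rep (u : List Bool) (n : ℕ) (hn : 1 ≤ n) (hu : 0 < u.length) (i : ℤ) :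
    lett (List.replicate n u).flatten i = lett u i := by
  unfold lett
  rw [len_rep]
  have hpos : (0 : ℤ) < ((n * u.length : ℕ) : ℤ) := by
    have : 0 < n * u.length := Nat.mul_pos (by omega) hu
    exact_mod_cast this
  have h0 : 0 ≤ i % ((n * u.length : ℕ) : ℤ) := Int.emod_nonneg _ hpos.ne'
  have h1 : i % ((n * u.length : ℕ) : ℤ) < ((n * u.length : ℕ) : ℤ) := Int.emod_lt_of_pos _ hpos
  have h2 : (i % ((n * u.length : ℕ) : ℤ)).toNat < n * u.length := by
    have := (Int.toNat_lt h0).2 h1
    exact this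
  rw [getD_rep u n _ h2]
  congr 1
  have h3 : ((i % ((n * u.length : ℕ) : ℤ)).toNat : ℤ) = i % ((n * u.length : ℕ) : ℤ) := Int.toNat_of_nonneg h0
  have h4 : (((i % ((n * u.length : ℕ) : ℤ)).toNat % u.length : ℕ) : ℤ) = i % (u.length : ℤ) := by
    push_cast
    rw [Int.toNat_of_nonneg (by push_cast at h0; exact h0)]
    exact Int.emod_emod_of_dvd _ (Dvd.intro_left _ rfl)
  have h5 : 0 ≤ i % (u.length : ℤ) := Int.emod_nonneg _ (by exact_mod_cast hu.ne')
  omega

theorem hinge_rep (u : List Bool) (n : ℕ) (hn : 1 ≤ n) (hu : 0 < u.length) (i : ℤ) :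
    Hinge (List.replicate n u).flatten i ↔ Hinge u i := by
  unfold Hinge
  rw [lett_rep u n hn hu, lett_rep u n hn hu]

theorem hX_rep (u : List Bool) (n : ℕ) (hn : 1 ≤ n) (hu : 0 < u.length) (w : ℤ → ℝ) (i : ℤ) :
    hX (List.replicate n u).flatten w i = hX u w i := by
  unfold hX
  simp only [hinge_rep u n hn hu]

theorem hY_rep (u : List Bool) (n : ℕ) (hn : 1 ≤ n) (hu : 0 < u.length) (w : ℤ → ℝ) (i : ℤ) :
    hY (List.replicate n u).flatten w i = hY u w i := by
  unfold hY
  simp only [hinge_rep u n hn hu]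

/-- the volume of one layer -/
noncomputable def lay (u : List Bool) (w : ℤ → ℝ) (i : ℤ) : ℝ :=
  2 * (lob (hX u w i) + lob (hY u w i) + lob (hZ w i))

theorem sum_blocks (F : ℤ → ℝ) (n l : ℕ) :
    ∑ i ∈ range (n * l), F (i : ℤ) = ∑ m ∈ range n, ∑ i ∈ range l, F ((i : ℤ) + (m : ℤ) * l) := by
  induction n with
  | zero => simp
  | succ n ih =>
    rw [Nat.succ_mul, Finset.sum_range_add, ih, Finset.sum_range_succ]
    congr 1
    refine Finset.sum_congr rfl fun i _ => ?_
    congr 1
    push_cast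
    ring

theorem hvol_rep (u : List Bool) (n : ℕ) (hn : 1 ≤ n) (hu : 0 < u.length) (w : ℤ → ℝ) :
    hvol (List.replicate n u).flatten w = ∑ m ∈ range n, ∑ i ∈ range u.length, lay u w ((i : ℤ) + (m : ℤ) * u.length) := by
  rw [← sum_blocks]
  unfold hvol
  rw [len_rep]
  refine Finset.sum_congr rfl fun i _ => ?_
  rw [hX_rep u n hn hu, hY_rep u n hn hu]
  rfl

theorem hinge_shift (u : List Bool) (i : ℤ) (m : ℕ) : Hinge u (i + (m : ℤ) * u.length) ↔ Hinge u i :=
  hinge_per u (by rw [Int.add_mul_emod_self_right])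

theorem per_mul {w : ℤ → ℝ} {l : ℕ} (h : ∀ i, w (i + l) = w i) (m : ℕ) (i : ℤ) : w (i + (m : ℤ) * l) = w i := by
  induction m with
  | zero => simp
  | succ m ih =>
    have : i + ((m + 1 : ℕ) : ℤ) * l = (i + (m : ℤ) * l) + l := by push_cast; ring
    rw [this, h, ih]

theorem lay_per (u : List Bool) {w : ℤ → ℝ} (h : ∀ i, w (i + u.length) = w i) (m : ℕ) (i : ℤ) :
    lay u w (i + (m : ℤ) * u.length) = lay u w i := by
  have e1 : w (i + (m : ℤ) * u.length - 1) = w (i - 1) := by
    have : i + (m : ℤ) * u.length - 1 = (i - 1) + (m : ℤ) * u.length := by ring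
    rw [this, per_mul h]
  have e2 : w (i + (m : ℤ) * u.length + 1) = w (i + 1) := by
    have : i + (m : ℤ) * u.length + 1 = (i + 1) + (m : ℤ) * u.length := by ring
    rw [this, per_mul h]
  have e3 : w (i + (m : ℤ) * u.length) = w i := per_mul h m i
  unfold lay hX hY hZ
  simp only [hinge_shift, e1, e2, e3]

/-- an angle structure of `u` is one of `u ^ n` -/
theorem angle_up (u : List Bool) (n : ℕ) (hn : 1 ≤ n) (hu : 0 < u.length) {w : ℤ → ℝ} (hw : hAngle u w) :
    hAngle (List.replicate n u).flatten w := by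
  refine ⟨fun i => ?_, fun i => ?_⟩
  · rw [len_rep]
    push_cast
    exact per_mul hw.1 n i
  · rw [hX_rep u n hn hu, hY_rep u n hn hu]
    exact hw.2 i

theorem hvol_up (u : List Bool) (n : ℕ) (hn : 1 ≤ n) (hu : 0 < u.length) {w : ℤ → ℝ} (hw : hAngle u w) :
    hvol (List.replicate n u).flatten w = n * hvol u w := by
  rw [hvol_rep u n hn hu]
  have h1 : ∀ m ∈ range n, ∑ i ∈ range u.length, lay u w ((i : ℤ) + (m : ℤ) * u.length) = hvol u w := by
    intro m _
    unfold hvol
    refine Finset.sum_congr rfl fun i _ => ?_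
    rw [lay_per u hw.1]
    rfl
  rw [Finset.sum_congr rfl h1, Finset.sum_const, card_range, nsmul_eq_mul]

/-- the averaged function -/
noncomputable def av (l n : ℕ) (W : ℤ → ℝ) (i : ℤ) : ℝ := (∑ m ∈ range n, W (i + (m : ℤ) * l)) / n

theorem av_lin1 (u : List Bool) (n : ℕ) (W : ℤ → ℝ) (i : ℤ) :
    hX u (av u.length n W) i = (∑ m ∈ range n, hX u W (i + (m : ℤ) * u.length)) / n := by
  have c1 : ∀ m : ℕ, i + (m : ℤ) * u.length - 1 = (i - 1) + (m : ℤ) * u.length := fun m => by ring
  have c2 : ∀ m : ℕ, i + (m : ℤ) * u.length + 1 = (i + 1) + (m : ℤ) * u.length := fun m => by ring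
  unfold hX
  simp only [hinge_shift, c1, c2]
  split_ifs
  · unfold av
    rw [← Finset.sum_div, Finset.sum_sub_distrib, Finset.sum_add_distrib]
    ring
  · unfold av
    rw [← Finset.sum_div, Finset.sum_add_distrib]
    ring

theorem av_lin2 (u : List Bool) (n : ℕ) (W : ℤ → ℝ) (i : ℤ) :
    hY u (av u.length n W) i = (∑ m ∈ range n, hY u W (i + (m : ℤ) * u.length)) / n := by
  have c1 : ∀ m : ℕ, i + (m : ℤ) * u.length - 1 = (i - 1) + (m : ℤ) * u.length := fun m => by ring
  have c2 : ∀ m : ℕ, i + (m : ℤ) * u.length + 1 = (i + 1) + (m : ℤ) * u.length := fun m => by ring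
  unfold hY
  simp only [hinge_shift, c1, c2]
  split_ifs
  · unfold av
    rw [← Finset.sum_div, Finset.sum_add_distrib, Finset.sum_add_distrib, Finset.sum_neg_distrib]
    ring
  · unfold av
    rw [← Finset.sum_div, Finset.sum_sub_distrib, Finset.sum_sub_distrib, ← Finset.mul_sum]
    ring

theorem av_lin3 (l n : ℕ) (hn : 1 ≤ n) (W : ℤ → ℝ) (i : ℤ) :
    hZ (av l n W) i = (∑ m ∈ range n, hZ W (i + (m : ℤ) * l)) / n := by
  have hn' : (n : ℝ) ≠ 0 := by
    have : n ≠ 0 := by omega
    exact_mod_cast this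
  unfold hZ av
  rw [Finset.sum_sub_distrib, Finset.sum_const, card_range, nsmul_eq_mul]
  field_simp

theorem av_per (l n : ℕ) {W : ℤ → ℝ} (h : ∀ i, W (i + (n : ℤ) * l) = W i) (i : ℤ) :
    av l n W (i + l) = av l n W i := by
  unfold av
  congr 1
  have e1 : ∀ m ∈ range n, W (i + l + (m : ℤ) * l) = W (i + ((m + 1 : ℕ) : ℤ) * l) := by
    intro m _
    congr 1
    push_cast
    ring
  rw [Finset.sum_congr rfl e1]
  have e2 := Finset.sum_range_succ (fun m : ℕ => W (i + (m : ℤ) * l)) n
  have e3 := Finset.sum_range_succ' (fun m : ℕ => W (i + (m : ℤ) * l)) n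
  have e4 : W (i + (n : ℤ) * l) = W (i + ((0 : ℕ) : ℤ) * l) := by rw [h]; simp
  rw [e4] at e2
  linarith

theorem angle_down (u : List Bool) (n : ℕ) (hn : 1 ≤ n) (hu : 0 < u.length) {W : ℤ → ℝ}
    (hW : hAngle (List.replicate n u).flatten W) : hAngle u (av u.length n W) := by
  have hn' : (0 : ℝ) < n := by exact_mod_cast hn
  have hne : (range n).Nonempty := ⟨0, Finset.mem_range.2 (by omega)⟩
  refine ⟨fun i => av_per u.length n (fun j => ?_) i, fun i => ⟨?_, ?_, ?_⟩⟩
  · have := hW.1 j
    rw [len_rep] at this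
    push_cast at this
    exact this
  · rw [av_lin1]
    refine div_pos (Finset.sum_pos (fun m _ => ?_) hne) hn'
    have := (hW.2 (i + (m : ℤ) * u.length)).1
    rwa [hX_rep u n hn hu] at this
  · rw [av_lin2]
    refine div_pos (Finset.sum_pos (fun m _ => ?_) hne) hn'
    have := (hW.2 (i + (m : ℤ) * u.length)).2.1
    rwa [hY_rep u n hn hu] at this
  · rw [av_lin3 _ _ hn]
    exact div_pos (Finset.sum_pos (fun m _ => (hW.2 _).2.2) hne) hn'

theorem sum_pi (u : List Bool) (w : ℤ → ℝ) (i : ℤ) : hX u w i + hY u w i + hZ w i = π := by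
  unfold hX hY hZ
  split_ifs <;> ring

theorem hvol_down (u : List Bool) (n : ℕ) (hn : 1 ≤ n) (hu : 0 < u.length) {W : ℤ → ℝ}
    (hW : hAngle (List.replicate n u).flatten W) :
    hvol (List.replicate n u).flatten W ≤ n * hvol u (av u.length n W) := by
  have hn' : (n : ℝ) ≠ 0 := by
    have : n ≠ 0 := by omega
    exact_mod_cast this
  have hw := angle_down u n hn hu hW
  rw [hvol_rep u n hn hu, Finset.sum_comm]
  have h1 : ∀ i ∈ range u.length, ∑ m ∈ range n, lay u W ((i : ℤ) + (m : ℤ) * u.length) ≤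
      n * lay u (av u.length n W) i := by
    intro i _
    obtain ⟨p1, p2, p3⟩ := hw.2 (i : ℤ)
    set x := hX u (av u.length n W) i with hx
    set y := hY u (av u.length n W) i with hy
    set z := hZ (av u.length n W) i with hz
    have hs : x + y + z = π := sum_pi _ _ _
    have t : ∀ m ∈ range n, lay u W ((i : ℤ) + (m : ℤ) * u.length) ≤ 2 * ((lob x + lob y + lob z) -
        (hX u W ((i : ℤ) + (m : ℤ) * u.length) - x) * Real.log (2 * Real.sin x) -
        (hY u W ((i : ℤ) + (m : ℤ) * u.length) - y) * Real.log (2 * Real.sin y) -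
        (hZ W ((i : ℤ) + (m : ℤ) * u.length) - z) * Real.log (2 * Real.sin z)) := by
      intro m _
      obtain ⟨q1, q2, q3⟩ := hW.2 ((i : ℤ) + (m : ℤ) * u.length)
      rw [hX_rep u n hn hu] at q1
      rw [hY_rep u n hn hu] at q2
      have := Pool.Agent.W120.VC.tet x y z _ _ _ p1 p2 p3 hs q1.le q2.le q3.le (sum_pi _ _ _)
      unfold lay
      linarith
    refine (Finset.sum_le_sum t).trans (le_of_eq ?_)
    have ex : ∑ m ∈ range n, (hX u W ((i : ℤ) + (m : ℤ) * u.length) - x) = 0 := by
      rw [Finset.sum_sub_distrib, Finset.sum_const, card_range, nsmul_eq_mul, hx, av_lin1]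
      field_simp
      ring
    have ey : ∑ m ∈ range n, (hY u W ((i : ℤ) + (m : ℤ) * u.length) - y) = 0 := by
      rw [Finset.sum_sub_distrib, Finset.sum_const, card_range, nsmul_eq_mul, hy, av_lin2]
      field_simp
      ring
    have ez : ∑ m ∈ range n, (hZ W ((i : ℤ) + (m : ℤ) * u.length) - z) = 0 := by
      rw [Finset.sum_sub_distrib, Finset.sum_const, card_range, nsmul_eq_mul, hz, av_lin3 _ _ hn]
      field_simp
      ring
    rw [← Finset.mul_sum, Finset.sum_sub_distrib, Finset.sum_sub_distrib, Finset.sum_sub_distrib,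
      Finset.sum_const, card_range, nsmul_eq_mul, ← Finset.sum_mul, ← Finset.sum_mul, ← Finset.sum_mul, ex, ey, ez]
    unfold lay
    ring
  refine (Finset.sum_le_sum h1).trans (le_of_eq ?_)
  rw [← Finset.mul_sum]
  rfl

/-- **VM.** -/
theorem volm (u : List Bool) (n : ℕ) (hn : 1 ≤ n) :
    Pool.Agent.R807.IN.hV (List.replicate n u).flatten = n * Pool.Agent.R807.IN.hV u := by
  rcases Nat.eq_zero_or_pos u.length with hu | hu
  · have hu' : u = [] := List.length_eq_zero_iff.1 hu
    subst hu'
    have e : (List.replicate n ([] : List Bool)).flatten = [] := by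
      apply List.length_eq_zero_iff.1
      rw [len_rep]
      simp
    have h0 : hV [] = 0 := by
      unfold hV
      by_cases h : ∃ w, hAngle [] w
      · obtain ⟨w, hw⟩ := h
        have : {V : ℝ | ∃ w, hAngle [] w ∧ hvol [] w = V} = {0} := by
          ext V
          constructor
          · rintro ⟨w', _, rfl⟩
            simp [hvol]
          · intro hV
            rw [Set.mem_singleton_iff] at hV
            exact ⟨w, hw, by simp [hvol, hV]⟩
        rw [this, csSup_singleton]
      · have : {V : ℝ | ∃ w, hAngle [] w ∧ hvol [] w = V} = ∅ := by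
          ext V
          constructor
          · rintro ⟨w', hw', _⟩
            exact h ⟨w', hw'⟩
          · intro hV
            exact absurd hV (Set.notMem_empty _)
        rw [this, Real.sSup_empty]
    rw [e, h0, mul_zero]
  have hn' : (0 : ℝ) < n := by exact_mod_cast hn
  have bU : BddAbove {V : ℝ | ∃ w, hAngle (List.replicate n u).flatten w ∧ hvol (List.replicate n u).flatten w = V} :=
    ⟨_, by rintro V ⟨w, hw, rfl⟩; exact vol_le _ hw⟩
  have bu : BddAbove {V : ℝ | ∃ w, hAngle u w ∧ hvol u w = V} :=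
    ⟨_, by rintro V ⟨w, hw, rfl⟩; exact vol_le _ hw⟩
  by_cases h : ∃ w, hAngle u w
  · obtain ⟨w0, hw0⟩ := h
    apply le_antisymm
    · refine csSup_le ⟨_, w0, angle_up u n hn hu hw0, rfl⟩ ?_
      rintro V ⟨W, hW, rfl⟩
      refine (hvol_down u n hn hu hW).trans ?_
      exact mul_le_mul_of_nonneg_left (le_csSup bu ⟨_, angle_down u n hn hu hW, rfl⟩) hn'.le
    · have h1 : hV u ≤ hV (List.replicate n u).flatten / n := by
        refine csSup_le ⟨_, w0, hw0, rfl⟩ ?_
        rintro V ⟨w, hw, rfl⟩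
        rw [le_div_iff₀ hn', mul_comm, ← hvol_up u n hn hu hw]
        exact le_csSup bU ⟨_, angle_up u n hn hu hw, rfl⟩
      rw [le_div_iff₀ hn'] at h1
      linarith
  · have e1 : {V : ℝ | ∃ w, hAngle u w ∧ hvol u w = V} = ∅ := by
      ext V
      constructor
      · rintro ⟨w', hw', _⟩
        exact h ⟨w', hw'⟩
      · intro hV
        exact absurd hV (Set.notMem_empty _)
    have e2 : {V : ℝ | ∃ w, hAngle (List.replicate n u).flatten w ∧ hvol (List.replicate n u).flatten w = V} = ∅ := by
      ext V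
      constructor
      · rintro ⟨w', hw', _⟩
        exact h ⟨_, angle_down u n hn hu hw'⟩
      · intro hV
        exact absurd hV (Set.notMem_empty _)
    unfold hV
    rw [e1, e2, Real.sSup_empty, mul_zero]

end Pool.Agent.H94.CYC
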