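import Pool.Agent.H62.CYC.DefsP

set_option autoImplicit false

/-! Project CYC2, PLOGW: the asymptotics of the weight. -/

namespace Pool.Agent.H94.CYC

open Finset Filter MeasureTheory
open Pool.Agent.H62.CYC
open Pool.Agent.W707.TV (Rh RH)
open GapVol (g lob g_int g_anti lob_sub lob_cont lob_half)
open scoped Real Topology

theorem lob_unif {ε : ℝ} (hε : 0 < ε) : ∃ δ : ℝ, 0 < δ ∧ ∀ x ∈ Set.Icc (0 : ℝ) π,
    ∀ y ∈ Set.Icc (0 : ℝ) π, |x - y| < δ → |lob x - lob y| < ε := by
  have huc := isCompact_Icc.uniformContinuousOn_of_continuous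
    (lob_cont.continuousOn (s := Set.Icc (0 : ℝ) π))
  rw [Metric.uniformContinuousOn_iff] at huc
  obtain ⟨δ, hδ, hu⟩ := huc ε hε
  refine ⟨δ, hδ, fun x hx y hy h => ?_⟩
  have := hu x hx y hy (by rw [Real.dist_eq]; exact h)
  rwa [Real.dist_eq] at this

theorem cell (c h : ℝ) (hc : 0 < c) (hh : 0 ≤ h) (hle : c + 2 * h ≤ π / 2) :
    |(∫ t in c..(c + 2 * h), g t) - 2 * h * g (c + h)| ≤ 2 * h * (g c - g (c + 2 * h)) := by
  have h1 : ∫ t in c..(c + 2 * h), g t ≤ 2 * h * g c := by
    have h2 : ∫ t in c..(c + 2 * h), g t ≤ ∫ t in c..(c + 2 * h), g c := by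
      apply intervalIntegral.integral_mono_on (by linarith) (g_int _ _) (by simp)
      intro t ht
      exact g_anti hc ht.1 (ht.2.trans hle)
    rw [intervalIntegral.integral_const, smul_eq_mul] at h2
    have : c + 2 * h - c = 2 * h := by ring
    rw [this] at h2
    exact h2
  have h2 : 2 * h * g (c + 2 * h) ≤ ∫ t in c..(c + 2 * h), g t := by
    have h2 : ∫ t in c..(c + 2 * h), g (c + 2 * h) ≤ ∫ t in c..(c + 2 * h), g t := by
      apply intervalIntegral.integral_mono_on (by linarith) (by simp) (g_int _ _)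
      intro t ht
      exact g_anti (by linarith [ht.1]) ht.2 hle
    rw [intervalIntegral.integral_const, smul_eq_mul] at h2
    have : c + 2 * h - c = 2 * h := by ring
    rw [this] at h2
    exact h2
  have h3 : g (c + h) ≤ g c := g_anti hc (by linarith) (by linarith)
  have h4 : g (c + 2 * h) ≤ g (c + h) := g_anti (by linarith) (by linarith) hle
  have h5 : 2 * h * g (c + h) ≤ 2 * h * g c := mul_le_mul_of_nonneg_left h3 (by linarith)
  have h6 : 2 * h * g (c + 2 * h) ≤ 2 * h * g (c + h) := mul_le_mul_of_nonneg_left h4 (by linarith)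
  rw [abs_le]
  constructor <;> nlinarith

theorem cells (h : ℝ) (hh : 0 ≤ h) (d : ℕ) (hd : 2 * d * h < π / 2) :
    |(lob (π / 2) - lob (π / 2 - 2 * d * h)) - 2 * h * ∑ j ∈ range d, g (π / 2 - (2 * j + 1) * h)| ≤
      2 * h * (g (π / 2 - 2 * d * h) - g (π / 2)) := by
  induction d with
  | zero => simp
  | succ d ih =>
    have hd' : 2 * (d : ℝ) * h < π / 2 := by
      push_cast at hd
      nlinarith
    have h1 := ih hd'
    have h2 := cell (π / 2 - 2 * ((d + 1 : ℕ) : ℝ) * h) h (by linarith) hh (by push_cast; nlinarith)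
    have e1 : π / 2 - 2 * ((d + 1 : ℕ) : ℝ) * h + 2 * h = π / 2 - 2 * d * h := by push_cast; ring
    have e2 : π / 2 - 2 * ((d + 1 : ℕ) : ℝ) * h + h = π / 2 - (2 * d + 1) * h := by push_cast; ring
    rw [e1, e2, ← lob_sub] at h2
    rw [sum_range_succ]
    have e3 : (lob (π / 2) - lob (π / 2 - 2 * ((d + 1 : ℕ) : ℝ) * h)) -
        2 * h * (∑ j ∈ range d, g (π / 2 - (2 * j + 1) * h) + g (π / 2 - (2 * d + 1) * h)) =
        ((lob (π / 2) - lob (π / 2 - 2 * d * h)) -
          2 * h * ∑ j ∈ range d, g (π / 2 - (2 * j + 1) * h)) +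
        (lob (π / 2 - 2 * d * h) - lob (π / 2 - 2 * ((d + 1 : ℕ) : ℝ) * h) -
          2 * h * g (π / 2 - (2 * d + 1) * h)) := by ring
    rw [e3]
    refine (abs_add_le _ _).trans ?_
    linarith

theorem logWT (M k : ℕ) (hk : k < M) (hk2 : M + 1 ≤ 2 * k) :
    Real.log (WT M k) = -2 * ∑ j ∈ range (M - k), g (π / 2 - (2 * j + 1) * (π / (2 * M + 1))) := by
  have hr : (0 : ℝ) < 2 * M + 1 := by positivity
  unfold WT
  rw [Real.log_prod, Finset.mul_sum]
  · apply sum_congr rfl
    intro j hj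
    unfold GapVol.g
    rw [Real.sin_pi_div_two_sub, Real.log_pow]
    have : (2 * (j : ℝ) + 1) * (π / (2 * M + 1)) = π * (2 * j + 1) / (2 * M + 1) := by ring
    rw [this]
    push_cast
    ring
  · intro j hj
    rw [mem_range] at hj
    have h1 : 0 < Real.cos (π * (2 * j + 1) / (2 * M + 1)) := by
      apply Real.cos_pos_of_mem_Ioo
      have hp := Real.pi_pos
      constructor
      · have : 0 ≤ π * (2 * j + 1) / (2 * M + 1) := by positivity
        linarith
      · rw [div_lt_div_iff₀ hr (by norm_num)]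
        have h2 : (2 * j + 1) * 2 < 2 * M + 1 := by omega
        have h3 : (2 * (j : ℝ) + 1) * 2 < 2 * M + 1 := by exact_mod_cast h2
        nlinarith
    positivity

theorem bound (M k : ℕ) (hk : k < M) (hk2 : M + 1 ≤ 2 * k) :
    |Real.log (WT M k) - Rh M / (4 * π) * (8 * lob (2 * π * k / Rh M / 2 - π / 2 + π / (2 * M + 1)))| ≤
      2 * (Real.log (2 * M + 1) + Real.log 2) := by
  have hp := Real.pi_pos
  have hr : (0 : ℝ) < 2 * M + 1 := by positivity
  set h : ℝ := π / (2 * M + 1) with hh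
  have hh0 : 0 < h := by positivity
  have hhr : h * (2 * M + 1) = π := by rw [hh]; field_simp
  set d : ℕ := M - k with hd
  have hdk : (d : ℝ) = M - k := by rw [hd, Nat.cast_sub hk.le]
  have hd2 : 2 * (d : ℝ) + 1 ≤ M := by
    have : 2 * d + 1 ≤ M := by omega
    exact_mod_cast this
  have hlow : 3 / 2 * h ≤ π / 2 - 2 * d * h := by
    rw [← hhr]
    nlinarith
  have h1 := cells h hh0.le d (by nlinarith)
  rw [lob_half] at h1
  have hRh : Rh M = (2 * M + 1) / 2 := by
    unfold Pool.Agent.W707.TV.Rh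
    ring
  have e1 : 2 * π * k / Rh M / 2 - π / 2 + h = π / 2 - 2 * d * h := by
    rw [hRh, hdk]
    have e2 : 2 * π * (k : ℝ) / ((2 * M + 1) / 2) / 2 = 2 * k * h := by
      rw [hh]
      field_simp
    rw [e2]
    have e3 : π = 2 * M * h + h := by rw [← hhr]; ring
    linarith
  rw [e1]
  set t : ℝ := π / 2 - 2 * d * h with ht
  have ht0 : 0 < t := by linarith
  have ht2 : t ≤ π / 2 := by
    rw [ht]
    have : 0 ≤ 2 * (d : ℝ) * h := by positivity
    linarith
  have hg : g t ≤ Real.log (2 * M + 1) := by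
    unfold GapVol.g
    have h2 : 2 / π * t ≤ Real.sin t := Real.mul_le_sin ht0.le ht2
    have h3 : 1 / (2 * (M : ℝ) + 1) ≤ 2 * Real.sin t := by
      have h4 : 2 / π * (3 / 2 * h) ≤ 2 / π * t := mul_le_mul_of_nonneg_left hlow (by positivity)
      have h5 : 2 / π * (3 / 2 * h) = 3 / (2 * M + 1) := by
        rw [hh]
        field_simp
      have h6 : 1 / (2 * (M : ℝ) + 1) ≤ 2 * (3 / (2 * M + 1)) := by
        rw [← mul_div_assoc]
        apply div_le_div_of_nonneg_right (by norm_num) hr.le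
      linarith
    have h4 := Real.log_le_log (by positivity) h3
    rw [one_div, Real.log_inv] at h4
    linarith
  have hg2 : g (π / 2) = -Real.log 2 := by
    unfold GapVol.g
    rw [Real.sin_pi_div_two, mul_one]
  have h2 : |0 - lob t - 2 * h * ∑ j ∈ range d, g (π / 2 - (2 * j + 1) * h)| ≤
      2 * h * (Real.log (2 * M + 1) + Real.log 2) := by
    refine h1.trans ?_
    rw [hg2]
    apply mul_le_mul_of_nonneg_left _ (by positivity)
    linarith
  rw [logWT M k hk hk2]
  rw [← hh, ← hd]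
  set S₀ : ℝ := ∑ j ∈ range d, g (π / 2 - (2 * j + 1) * h) with hS
  have e4 : -2 * S₀ - Rh M / (4 * π) * (8 * lob t) = (0 - lob t - 2 * h * S₀) / h := by
    have e5 : Rh M / (4 * π) * (8 * lob t) = lob t / h := by
      rw [hRh, hh]
      field_simp
      ring
    rw [e5]
    field_simp
    ring
  rw [e4, abs_div, abs_of_pos hh0, div_le_iff₀ hh0]
  linarith

theorem plogw : S_PLOGW := by
  intro ε hε
  have hp := Real.pi_pos
  obtain ⟨δ, hδ, hu⟩ := lob_unif (show 0 < ε * π / 8 by positivity)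
  have t1 : Tendsto (fun M : ℕ => (2 * (M : ℝ) + 1)) atTop atTop :=
    tendsto_atTop_mono (fun M => by linarith [(Nat.cast_nonneg M : (0 : ℝ) ≤ M)])
      (tendsto_natCast_atTop_atTop (R := ℝ))
  have t2 : Tendsto (fun x : ℝ => Real.log x / x) atTop (𝓝 0) :=
    Real.isLittleO_log_id_atTop.tendsto_div_nhds_zero
  have t3 : ∀ᶠ M : ℕ in atTop, Real.log (2 * M + 1) / (2 * M + 1) < ε / 24 :=
    (t2.comp t1).eventually (gt_mem_nhds (by positivity))
  have t4 : ∀ᶠ M : ℕ in atTop, π / (2 * M + 1) < δ :=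
    (tendsto_const_nhds.div_atTop t1).eventually (gt_mem_nhds hδ)
  have t5 : ∀ᶠ M : ℕ in atTop, 2 * Real.log 2 ≤ ε / 4 * M := by
    have h1 : Tendsto (fun M : ℕ => ε / 4 * (M : ℝ)) atTop atTop :=
      Tendsto.const_mul_atTop (by positivity) tendsto_natCast_atTop_atTop
    exact h1.eventually_ge_atTop _
  filter_upwards [t3, t4, t5, eventually_ge_atTop 1] with M a3 a4 a5 hM k hk hk2
  have hMR : (1 : ℝ) ≤ M := by exact_mod_cast hM
  have hr : (0 : ℝ) < 2 * M + 1 := by positivity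
  have hb := bound M k hk hk2
  set h : ℝ := π / (2 * M + 1) with hh
  have hh0 : 0 < h := by positivity
  have hhr : h * (2 * M + 1) = π := by rw [hh]; field_simp
  have hRh : Rh M = (2 * M + 1) / 2 := by
    unfold Pool.Agent.W707.TV.Rh
    ring
  have e1 : 2 * π * k / Rh M = 4 * k * h := by
    rw [hRh, hh]
    field_simp
    ring
  rw [e1] at hb ⊢
  have hkM : (k : ℝ) + 1 ≤ M := by exact_mod_cast hk
  have hkM2 : (M : ℝ) + 1 ≤ 2 * k := by exact_mod_cast hk2
  set x : ℝ := 4 * k * h / 2 - π / 2 + h with hx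
  have hy : (4 * k * h - π) / 2 = x - h := by rw [hx]; ring
  rw [hy]
  have hxe : x = 2 * k * h - π / 2 + h := by rw [hx]; ring
  have hx0 : 0 ≤ x - h := by
    rw [hxe, ← hhr]
    nlinarith
  have hx1 : x ≤ π := by
    rw [hxe, ← hhr]
    nlinarith
  have h1 := hu x ⟨by linarith, hx1⟩ (x - h) ⟨hx0, by linarith⟩
    (by rw [sub_sub_cancel, abs_of_pos hh0]; exact a4)
  have e2 : Real.log (WT M k) - Rh M / (4 * π) * (8 * lob (x - h)) =
      (Real.log (WT M k) - Rh M / (4 * π) * (8 * lob x)) +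
        Rh M / (4 * π) * 8 * (lob x - lob (x - h)) := by ring
  rw [e2]
  refine (abs_add_le _ _).trans ?_
  have hR0 : 0 < Rh M / (4 * π) * 8 := by
    rw [hRh]; positivity
  have h2 : |Rh M / (4 * π) * 8 * (lob x - lob (x - h))| ≤ ε / 2 * M := by
    rw [abs_mul, abs_of_pos hR0]
    calc Rh M / (4 * π) * 8 * |lob x - lob (x - h)| ≤ Rh M / (4 * π) * 8 * (ε * π / 8) :=
          mul_le_mul_of_nonneg_left h1.le hR0.le
      _ = ε * (Rh M / 4) := by field_simp
      _ ≤ ε / 2 * M := by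
          rw [hRh]
          nlinarith
  have h3 : Real.log (2 * M + 1) ≤ ε / 8 * M := by
    rw [div_lt_iff₀ hr] at a3
    nlinarith
  linarith

end Pool.Agent.H94.CYC
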